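import Pool.Agent.H609R3.NM.Fin
import Pool.Agent.Q185.ML.Num

/-!
# The `n`th Markoff number is asymptotic to `A ^ √n / 3`

Let `m_n` be the `n`th Markoff number (distinct numbers, in increasing order), let `C` be the limit of
`M(N) / (log N)²`, where `M(N)` is the number of Markoff triples up to `N`, and let `A = exp (1 / √C)`. Without the
uniqueness conjecture:

* `m_n A^(-√n)` tends to `1/3`;
* the number of Markoff numbers up to `N` is `C (log (3 N))² + o(log N)`;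
* the number of Markoff triples up to `N` exceeds the number of Markoff numbers up to `N` by at most
  `O((log N) ^ (30/31 + ε))`.
-/

set_option autoImplicit false

namespace Pool.Agent.Results.MP_94ab62_nt.LimitOneThird

open Filter Asymptotics Pool.Agent.H609R3.NM

/-- Markoff numbers: the entries of the solutions of `x² + y² + z² = 3 x y z` in positive
integers. -/
def IsMarkoff (m : ℕ) : Prop :=
  ∃ x y : ℕ, 0 < x ∧ 0 < y ∧ 0 < m ∧ x ^ 2 + y ^ 2 + m ^ 2 = 3 * x * y * m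

/-- `m_n`, the `n`th Markoff number, `n ≥ 1` (the distinct Markoff numbers in increasing order) -/
noncomputable def markoff (n : ℕ) : ℕ := Nat.nth IsMarkoff (n - 1)

/-- `M(N)`, the number of Markoff triples `x ≤ y ≤ z ≤ N` -/
def triples (N : ℕ) : ℕ :=
  ((Finset.Icc 1 N ×ˢ Finset.Icc 1 N ×ˢ Finset.Icc 1 N).filter
    (fun p : ℕ × ℕ × ℕ =>
      p.1 ≤ p.2.1 ∧ p.2.1 ≤ p.2.2 ∧
        p.1 ^ 2 + p.2.1 ^ 2 + p.2.2 ^ 2 = 3 * p.1 * p.2.1 * p.2.2)).card

/-- the number of Markoff numbers `m ≤ N` -/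
noncomputable def numbers (N : ℕ) : ℕ := {m : ℕ | m ≤ N ∧ IsMarkoff m}.ncard

theorem numbers_eq (N : ℕ) : numbers N = Pool.Agent.H499R2.mkN N := by
  classical
  unfold numbers Pool.Agent.H499R2.mkN
  rw [← Set.ncard_coe_finset]
  congr 1
  ext m
  simp only [Set.mem_ofPred_eq, Finset.coe_filter, Finset.mem_Icc]
  have h : IsMarkoff m ↔ 1 ≤ m ∧ Pool.Agent.H499R2.Mk m := P_iff
  rw [h]
  tauto

open Pool.Agent.H499R2 in
/-- the number of exceptions -/
lemma values (ε : ℝ) (hε : 0 < ε) : ∃ C : ℝ, 0 < C ∧ ∀ N : ℕ, 3 ≤ N →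
    (exN N : ℝ) ≤ C * (Real.log N) ^ (30 / 31 + ε) := by
  obtain ⟨C, hC, hmain⟩ := Pool.Agent.Q185.ML.NU_final ε hε
  refine ⟨C * 4 ^ (30 / 31 + ε), by positivity, ?_⟩
  intro N hN
  have hNr : (3 : ℝ) ≤ N := by exact_mod_cast hN
  have hlog : 1 ≤ Real.log N := by
    rw [Real.le_log_iff_exp_le (by linarith)]
    have := Real.exp_one_lt_d9
    linarith
  obtain ⟨y, hy⟩ : ∃ y, y = Real.log N := ⟨_, rfl⟩
  rw [← hy] at hlog ⊢
  have hy0 : 0 < y := by linarith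
  have h3N : Real.log (3 * N) ≤ 2 * y := by
    rw [Real.log_mul (by norm_num) (by linarith), hy]
    have : Real.log 3 ≤ Real.log N := Real.log_le_log (by norm_num) hNr
    linarith
  have h3N' : y ≤ Real.log (3 * N) := by
    rw [hy]; exact Real.log_le_log (by linarith) (by linarith)
  obtain ⟨H, hH⟩ : ∃ H, H = ⌊2 * Real.log (3 * N)⌋₊ := ⟨_, rfl⟩
  have f1 : (H : ℝ) ≤ 2 * Real.log (3 * N) := by rw [hH]; exact Nat.floor_le (by linarith)
  have f2 : 2 * Real.log (3 * N) < H + 1 := by rw [hH]; exact Nat.lt_floor_add_one _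
  have hH1 : 1 ≤ H := by
    have : (0 : ℝ) < H := by linarith
    exact_mod_cast this
  have g1 : exN N ≤ (NU H).card := Ex_card N H (by omega) f2
  have g2 := hmain H hH1
  have g3 : (H : ℝ) ^ (30 / 31 + ε) ≤ 4 ^ (30 / 31 + ε) * y ^ (30 / 31 + ε) := by
    calc (H : ℝ) ^ (30 / 31 + ε) ≤ (4 * y) ^ (30 / 31 + ε) :=
          Real.rpow_le_rpow (by positivity) (by linarith) (by positivity)
      _ = _ := Real.mul_rpow (by norm_num) hy0.le
  calc (exN N : ℝ) ≤ (NU H).card := by exact_mod_cast g1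
    _ ≤ C * (H : ℝ) ^ (30 / 31 + ε) := g2
    _ ≤ C * (4 ^ (30 / 31 + ε) * y ^ (30 / 31 + ε)) := mul_le_mul_of_nonneg_left g3 hC.le
    _ = _ := by ring

/-- the excess of the triples over the numbers -/
lemma excess (ε : ℝ) (hε : 0 < ε) : ∃ K : ℝ, 0 < K ∧ ∀ N : ℕ, 3 ≤ N →
    (tri N : ℝ) - Pool.Agent.H499R2.mkN N ≤ K * (Real.log N) ^ (30 / 31 + ε) := by
  obtain ⟨δ, hδ⟩ : ∃ δ : ℝ, δ = ε / 3 := ⟨_, rfl⟩
  have hδ0 : 0 < δ := by rw [hδ]; positivity
  obtain ⟨C, hC, h1⟩ := values δ hδ0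
  refine ⟨C * (7 * (1 / δ) ^ 2 + 77), by positivity, ?_⟩
  intro N hN
  have h2 := excess_le N hN
  have hNr : (3 : ℝ) ≤ N := by exact_mod_cast hN
  have hlog : 1 ≤ Real.log N := by
    rw [Real.le_log_iff_exp_le (by linarith)]
    have := Real.exp_one_lt_d9
    linarith
  have h3 := h1 N hN
  obtain ⟨y, hy⟩ : ∃ y, y = Real.log N := ⟨_, rfl⟩
  rw [← hy] at hlog h2 h3 ⊢
  have hy0 : 0 < y := by linarith
  have h4 := Real.log_le_rpow_div hy0.le hδ0
  have h5 : 0 ≤ Real.log y := Real.log_nonneg hlog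
  have h6 : (Real.log y) ^ 2 ≤ (1 / δ) ^ 2 * y ^ (2 * δ) := by
    calc (Real.log y) ^ 2 ≤ (y ^ δ / δ) ^ 2 := pow_le_pow_left₀ h5 h4 2
      _ = (1 / δ) ^ 2 * (y ^ δ) ^ 2 := by ring
      _ = _ := by
        congr 1
        rw [← Real.rpow_natCast (y ^ δ), ← Real.rpow_mul hy0.le]
        congr 1
        push_cast
        ring
  have h7 : 1 ≤ y ^ (2 * δ) := Real.one_le_rpow hlog (by positivity)
  have h8 : 7 * (Real.log y) ^ 2 + 77 ≤ (7 * (1 / δ) ^ 2 + 77) * y ^ (2 * δ) := by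
    have : (7 * (1 / δ) ^ 2 + 77) * y ^ (2 * δ) = 7 * ((1 / δ) ^ 2 * y ^ (2 * δ)) + 77 * y ^ (2 * δ) := by ring
    rw [this]
    linarith
  calc (tri N : ℝ) - Pool.Agent.H499R2.mkN N ≤ _ := h2
    _ ≤ (C * y ^ (30 / 31 + δ)) * ((7 * (1 / δ) ^ 2 + 77) * y ^ (2 * δ)) :=
        mul_le_mul h3 h8 (by positivity) (by positivity)
    _ = C * (7 * (1 / δ) ^ 2 + 77) * (y ^ (30 / 31 + δ) * y ^ (2 * δ)) := by ring
    _ = _ := by
        congr 1
        rw [← Real.rpow_add hy0]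
        congr 1
        rw [hδ]
        ring

lemma excess_small : (fun N : ℕ => (tri N : ℝ) - Pool.Agent.H499R2.mkN N) =o[atTop] (fun N : ℕ => Real.log N) := by
  obtain ⟨K, hK, h⟩ := excess (1 / 62) (by norm_num)
  have h5 : Tendsto (fun N : ℕ => Real.log (N : ℝ)) atTop atTop :=
    Real.tendsto_log_atTop.comp tendsto_natCast_atTop_atTop
  refine IsLittleO.of_bound fun c hc => ?_
  have h6 := (tendsto_rpow_atTop (show (0 : ℝ) < 1 / 62 by norm_num)).comp h5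
  filter_upwards [eventually_ge_atTop 3, h5.eventually_ge_atTop 1, h6.eventually_ge_atTop (K / c)] with N hN hy1 hy2
  have h2 := h N hN
  have h3 : (Pool.Agent.H499R2.mkN N : ℝ) ≤ tri N := by exact_mod_cast mkN_le_tri N
  simp only [Function.comp] at hy2
  obtain ⟨y, hy⟩ : ∃ y, y = Real.log (N : ℝ) := ⟨_, rfl⟩
  rw [← hy] at hy1 hy2 h2 ⊢
  have hy0 : 0 < y := by linarith
  rw [Real.norm_eq_abs, Real.norm_eq_abs, abs_of_nonneg (by linarith), abs_of_nonneg hy0.le]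
  rw [div_le_iff₀ hc] at hy2
  have h7 : y ^ (1 / 62 : ℝ) * y ^ (30 / 31 + 1 / 62 : ℝ) = y := by
    rw [← Real.rpow_add hy0]
    norm_num
  have h8 : 0 ≤ y ^ (30 / 31 + 1 / 62 : ℝ) := Real.rpow_nonneg hy0.le _
  calc (tri N : ℝ) - Pool.Agent.H499R2.mkN N ≤ K * y ^ (30 / 31 + 1 / 62 : ℝ) := h2
    _ ≤ (y ^ (1 / 62 : ℝ) * c) * y ^ (30 / 31 + 1 / 62 : ℝ) := mul_le_mul_of_nonneg_right hy2 h8
    _ = c * (y ^ (1 / 62 : ℝ) * y ^ (30 / 31 + 1 / 62 : ℝ)) := by ring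
    _ = c * y := by rw [h7]

/-- **Theorem (the `n`th Markoff number).** -/
theorem result : ∃ C : ℝ, 0 < C ∧
    Tendsto (fun N : ℕ => (triples N : ℝ) / (Real.log N) ^ 2) atTop (nhds C) ∧
    Tendsto (fun n : ℕ => (markoff n : ℝ) / Real.exp (Real.sqrt n / Real.sqrt C)) atTop (nhds (1 / 3)) ∧
    (fun N : ℕ => (numbers N : ℝ) - C * (Real.log (3 * N)) ^ 2) =o[atTop] (fun N : ℕ => Real.log N) ∧
    ∀ ε : ℝ, 0 < ε → ∃ K : ℝ, ∀ N : ℕ, 3 ≤ N →
      (triples N : ℝ) - numbers N ≤ K * (Real.log N) ^ (30 / 31 + ε) := by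
  obtain ⟨c, hc, h⟩ := tri_asymp
  have hR := R_small h
  have hb := basic c
  have em : ∀ n, markoff n = mk n := fun _ => rfl
  refine ⟨c, hc, tri_limit h, ?_, ?_, ?_⟩
  · have e1 : (fun n : ℕ => (markoff n : ℝ) / Real.exp (Real.sqrt n / Real.sqrt c)) =
        fun n : ℕ => 1 / 3 * Real.exp (L n - Real.sqrt (n / c)) := by
      funext n
      rw [em, ratio_eq hc]
    have ht : Tendsto (fun n : ℕ => L n - Real.sqrt (n / c)) atTop (nhds 0) := by
      rw [equiv hc L_tendsto hR hb, E_iff]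
      exact excess_small
    have h2 := (Real.continuous_exp.tendsto 0).comp ht
    rw [Real.exp_zero] at h2
    have h3 := h2.const_mul (1 / 3 : ℝ)
    rw [mul_one] at h3
    rw [e1]
    exact h3
  · have h1 := h.sub excess_small
    refine h1.congr_left fun N => ?_
    rw [numbers_eq]
    ring
  · intro ε hε
    obtain ⟨K, -, hK⟩ := excess ε hε
    refine ⟨K, fun N hN => ?_⟩
    rw [numbers_eq]
    exact hK N hN

end Pool.Agent.Results.MP_94ab62_nt.LimitOneThird
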